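import Pool.Agent.Y996.NL.Stm
import Pool.Agent.W671.NC.Dec

/-!
# NL-EX: expectation bounds in finite volume (helper448)
-/

set_option autoImplicit false

namespace Pool.Agent.Y448.NL

open H974 Finset Pool.Agent.W819.EN Pool.Agent.W819.NC Pool.Agent.Y996.NL

theorem hokP : Ok P2 := okq (q := (1 / 2 : ℝ)) (by norm_num) (by norm_num)

theorem bx_sub0 {v : Vtx} {k l : ℤ} (h : k ≤ l) : bx v k ⊆ bx v l := by
  unfold bx
  exact RE_subset (by omega) (by omega) (by omega) (by omega)

theorem an_sub {v : Vtx} {r R : ℕ} {l : ℤ} (h : (R : ℤ) ≤ l) : an v r R ⊆ bx v l :=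
  sdiff_subset.trans (bx_sub0 h)

/-- locality on larger sets -/
theorem loc_up {X : Finset Edg → ℕ} {T C : Finset Edg} (h : ∀ F, X F = X (F ∩ T)) (hTC : T ⊆ C)
    (F : Finset Edg) : X F = X (F ∩ C) := by
  rw [h F, h (F ∩ C)]
  congr 1
  rw [Finset.inter_assoc, Finset.inter_eq_right.2 hTC]

theorem XS_loc {N : NT} {W : WT} {K : KT} (h : Sys N W K) {v : Vtx} {a r c R : ℕ} {x0 x1 y0 y1 : ℤ}
    (hr1 : 1 ≤ r) (hr : r ≤ R) (hc1 : 1 ≤ c) (hc : 2 * c ≤ R) (ha : a ≤ r) (j : ℕ) (F : Finset Edg) :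
    XS N W K v a r c x0 x1 y0 y1 j F =
      XS N W K v a r c x0 x1 y0 y1 j (F ∩ (bx v ((2 * R : ℕ) : ℤ) ∪ LRE x0 x1 y0 y1)) := by
  have hsub : bx v ((2 * R : ℕ) : ℤ) ⊆ bx v ((2 * R : ℕ) : ℤ) ∪ LRE x0 x1 y0 y1 := subset_union_left
  match j with
  | 0 =>
    unfold XS WA
    by_cases h0 : a = 0
    · simp only [h0, if_true]
    · simp only [h0, if_false]
      exact loc_up (X := fun F => W F v a) (fun F => h.wloc F v a (by omega))
        ((an_sub (by push_cast; omega)).trans hsub) F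
  | 1 =>
    exact loc_up (X := fun F => N F v a (2 * r)) (fun F => h.geo.loc F v a (2 * r) (by omega))
      ((an_sub (by push_cast; omega)).trans hsub) F
  | 2 =>
    exact loc_up (X := fun F => W F v r) (fun F => h.wloc F v r hr1)
      ((an_sub (by push_cast; omega)).trans hsub) F
  | 3 =>
    exact loc_up (X := fun F => W F v c) (fun F => h.wloc F v c hc1)
      ((an_sub (by push_cast; omega)).trans hsub) F
  | (n + 4) =>
    exact loc_up (X := fun F => 2 * K F x0 x1 y0 y1) (fun F => by rw [h.kloc F x0 x1 y0 y1])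
      subset_union_right F

/-- one side -/
theorem side {N : NT} {W : WT} {K : KT} (h : Sys N W K) (hl : LocG N) (hin : S_IN) {t s A : ℝ} {M : ℕ}
    (ht : 0 < t) (hA : ∀ (v : Vtx) (a r R c : ℕ) (x0 x1 y0 y1 : ℤ) (S : Finset Edg), 1 ≤ r → r ≤ R → 1 ≤ c →
      2 * c ≤ R → R ≤ 2 * c + 1 → a ≤ r → (r ≤ M * a ∨ (a = 0 ∧ r ≤ M)) → 1 ≤ y1 - y0 → x0 < x1 →
      x1 - x0 ≤ M * (y1 - y0) → Disjoint (LRE x0 x1 y0 y1) (bx v ((c : ℤ) - 1)) →
      bx v ((2 * R : ℕ) : ℤ) ⊆ S → LRE x0 x1 y0 y1 ⊆ S → ∀ j < 5,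
      Ex P2 S (fun F => t ^ N F v r R * s ^ XS N W K v a r c x0 x1 y0 y1 j F) ≤ A * G N t r R)
    {v w : Vtx} {a r r' R c : ℕ} {x0 x1 y0 y1 : ℤ} {S : Finset Edg} (hr1 : 1 ≤ r) (hr : r ≤ R)
    (hr' : r' ≤ R) (hc1 : 1 ≤ c)
    (hc : 2 * c ≤ R) (hc' : R ≤ 2 * c + 1) (ha : a ≤ r) (haM : r ≤ M * a ∨ (a = 0 ∧ r ≤ M))
    (hy : 1 ≤ y1 - y0) (hx : x0 < x1) (hxy : x1 - x0 ≤ M * (y1 - y0))
    (hd : Disjoint (LRE x0 x1 y0 y1) (bx v ((c : ℤ) - 1))) (hS1 : bx v ((2 * R : ℕ) : ℤ) ⊆ S)
    (hS2 : LRE x0 x1 y0 y1 ⊆ S) (hS3 : bx w R ⊆ S) (hd1 : Disjoint (bx v ((2 * R : ℕ) : ℤ)) (bx w R))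
    (hd2 : Disjoint (LRE x0 x1 y0 y1) (bx w R)) (j : ℕ) (hj : j < 5) :
    Ex P2 S (fun F => t ^ N F v r R * t ^ N F w r' R * s ^ XS N W K v a r c x0 x1 y0 y1 j F) ≤
      A * (G N t r R * G N t r' R) := by
  have hg : 0 ≤ G N t r' R := Ex_nonneg hokP fun F _ => (pow_pos ht _).le
  have hRR : bx v R ⊆ bx v ((2 * R : ℕ) : ℤ) := bx_sub0 (by push_cast; omega)
  rw [hin N h.geo hl t v w r r' R S (bx v ((2 * R : ℕ) : ℤ) ∪ LRE x0 x1 y0 y1)
    (fun F => s ^ XS N W K v a r c x0 x1 y0 y1 j F) hr hr'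
    (union_subset (hRR.trans hS1) (union_subset hS1 hS2)) hS3
    (by
      rw [disjoint_union_left, disjoint_union_left]
      exact ⟨hd1.mono_left hRR, hd1, hd2⟩)
    (fun F _ => by rw [XS_loc h hr1 hr hc1 hc ha j F])]
  have h1 := hA v a r R c x0 x1 y0 y1 S hr1 hr hc1 hc hc' ha haM hy hx hxy hd hS1 hS2 j hj
  calc _ ≤ A * G N t r R * G N t r' R := mul_le_mul_of_nonneg_right h1 hg
    _ = _ := by ring

theorem ex : S_SI → S_IN → S_EX := by
  intro hsi hin N W K h hl ham htin htout t M ht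
  set s : ℝ := max t t⁻¹ with hs
  have hs1 : 1 ≤ s := by
    rcases le_total 1 t with h1 | h1
    · exact h1.trans (le_max_left _ _)
    · exact ((one_le_inv₀ ht).2 h1).trans (le_max_right _ _)
  have hs0 : 0 < s := by linarith
  obtain ⟨A, hA0, hA⟩ := hsi N W K h ham htin htout t (s ^ 11) (12 * M + 1) ht (one_le_pow₀ hs1)
  obtain ⟨A', hA'0, hA'⟩ := htin t 3 ht
  obtain ⟨C, hC0, hC⟩ := h.wmom ((s ^ 11) ^ 2) (one_le_pow₀ (one_le_pow₀ hs1))
  refine ⟨A + A' * Real.sqrt C, by positivity, ?_⟩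
  intro v w a b r r' R c D hP S hSv hSw
  obtain ⟨r1, r1', rR, rR', c1, cR, Rc, ar, br, ac, bc, aM, bM, RD, DM, vw, dx, dy, far⟩ := hP
  have g1 : 0 ≤ G N t r R := Ex_nonneg hokP fun F _ => (pow_pos ht _).le
  have g2 : 0 ≤ G N t r' R := Ex_nonneg hokP fun F _ => (pow_pos ht _).le
  have hD1 : 1 ≤ D := by omega
  have hM1 : 1 ≤ M := by
    rcases Nat.eq_zero_or_pos M with h0 | h0
    · rw [h0, zero_mul] at DM
      omega
    · exact h0
  have aM' : r ≤ (12 * M + 1) * a ∨ (a = 0 ∧ r ≤ 12 * M + 1) := by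
    rcases aM with h1 | ⟨h1, h2⟩
    · exact Or.inl (h1.trans (Nat.mul_le_mul_right a (by omega)))
    · exact Or.inr ⟨h1, by omega⟩
  have bM' : r' ≤ (12 * M + 1) * b ∨ (b = 0 ∧ r' ≤ 12 * M + 1) := by
    rcases bM with h1 | ⟨h1, h2⟩
    · exact Or.inl (h1.trans (Nat.mul_le_mul_right b (by omega)))
    · exact Or.inr ⟨h1, by omega⟩
  have hlen : (8 * (D : ℤ) - c) ≤ ((12 * M + 1 : ℕ) : ℤ) * (2 * c) := by
    have e1 : (D : ℤ) ≤ M * R := by exact_mod_cast DM
    have e2 : (R : ℤ) ≤ 3 * c := by omega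
    have e3 : (M : ℤ) * R ≤ M * (3 * c) := mul_le_mul_of_nonneg_left e2 (by positivity)
    push_cast
    nlinarith
  have hdvw : ∀ v w : Vtx, (4 * (R : ℤ) ≤ |v.1 - w.1| ∨ 4 * (R : ℤ) ≤ |v.2 - w.2|) →
      Disjoint (bx v ((2 * R : ℕ) : ℤ)) (bx w R) := by
    intro v w hfar
    rw [Finset.disjoint_left]
    rintro ⟨x, y, _ | _⟩ e1 e2
    · simp only [bx, mem_RE_false] at e1 e2
      push_cast at e1
      rcases hfar with hD | hD
      · rcases abs_cases (v.1 - w.1) with hc | hc <;> omega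
      · rcases abs_cases (v.2 - w.2) with hc | hc <;> omega
    · simp only [bx, mem_RE_true] at e1 e2
      push_cast at e1
      rcases hfar with hD | hD
      · rcases abs_cases (v.1 - w.1) with hc | hc <;> omega
      · rcases abs_cases (v.2 - w.2) with hc | hc <;> omega
  have hSvR : bx v R ⊆ S := (bx_sub0 (by push_cast; omega)).trans hSv
  have hSwR : bx w R ⊆ S := (bx_sub0 (by push_cast; omega)).trans hSw
  have hSv2 : bx v ((2 * R : ℕ) : ℤ) ⊆ S := (bx_sub0 (by push_cast; omega)).trans hSv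
  have hSw2 : bx w ((2 * R : ℕ) : ℤ) ⊆ S := (bx_sub0 (by push_cast; omega)).trans hSw
  have far' : 4 * (R : ℤ) ≤ |w.1 - v.1| ∨ 4 * (R : ℤ) ≤ |w.2 - v.2| := by
    rw [abs_sub_comm w.1, abs_sub_comm w.2]
    exact far
  -- the sides
  have sv : ∀ j < 5, Ex P2 S (fun F => t ^ N F v r R * t ^ N F w r' R *
      (s ^ 11) ^ XS N W K v a r c (v.1 - 8 * D) (v.1 - c) (v.2 - c) (v.2 + c) j F) ≤
      A * (G N t r R * G N t r' R) := by
    intro j hj
    refine side h hl hin ht hA r1 rR rR' c1 cR Rc ar aM' (by omega) (by omega) ?_ ?_ hSv2 ?_ hSwR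
      (hdvw v w far) ?_ j hj
    · have e1 : v.1 - c - (v.1 - 8 * D) = 8 * (D : ℤ) - c := by ring
      have e2 : v.2 + c - (v.2 - c) = 2 * (c : ℤ) := by ring
      rw [e1, e2]
      exact hlen
    · rw [Finset.disjoint_left]
      rintro ⟨x, y, _ | _⟩ e1 e2
      · simp only [bx, mem_RE_false, mem_LRE_false] at e1 e2; omega
      · simp only [bx, mem_RE_true, mem_LRE_true] at e1 e2; omega
    · refine subset_trans ?_ hSv
      rintro ⟨x, y, _ | _⟩ e1
      · simp only [bx, mem_RE_false, mem_LRE_false] at e1 ⊢; push_cast; omega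
      · simp only [bx, mem_RE_true, mem_LRE_true] at e1 ⊢; push_cast; omega
    · rw [Finset.disjoint_left]
      rintro ⟨x, y, _ | _⟩ e1 e2
      · simp only [bx, mem_RE_false, mem_LRE_false] at e1 e2
        rcases far with hD | hD
        · rcases abs_cases (v.1 - w.1) with hc | hc <;> omega
        · rcases abs_cases (v.2 - w.2) with hc | hc <;> omega
      · simp only [bx, mem_RE_true, mem_LRE_true] at e1 e2
        rcases far with hD | hD
        · rcases abs_cases (v.1 - w.1) with hc | hc <;> omega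
        · rcases abs_cases (v.2 - w.2) with hc | hc <;> omega
  have sw : ∀ j < 5, Ex P2 S (fun F => t ^ N F w r' R * t ^ N F v r R *
      (s ^ 11) ^ XS N W K w b r' c (w.1 + c) (w.1 + 8 * D) (w.2 - c) (w.2 + c) j F) ≤
      A * (G N t r' R * G N t r R) := by
    intro j hj
    refine side h hl hin ht hA r1' rR' rR c1 cR Rc br bM' (by omega) (by omega) ?_ ?_ hSw2 ?_ hSvR
      (hdvw w v far') ?_ j hj
    · have e1 : w.1 + 8 * D - (w.1 + c) = 8 * (D : ℤ) - c := by ring
      have e2 : w.2 + c - (w.2 - c) = 2 * (c : ℤ) := by ring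
      rw [e1, e2]
      exact hlen
    · rw [Finset.disjoint_left]
      rintro ⟨x, y, _ | _⟩ e1 e2
      · simp only [bx, mem_RE_false, mem_LRE_false] at e1 e2; omega
      · simp only [bx, mem_RE_true, mem_LRE_true] at e1 e2; omega
    · refine subset_trans ?_ hSw
      rintro ⟨x, y, _ | _⟩ e1
      · simp only [bx, mem_RE_false, mem_LRE_false] at e1 ⊢; push_cast; omega
      · simp only [bx, mem_RE_true, mem_LRE_true] at e1 ⊢; push_cast; omega
    · rw [Finset.disjoint_left]
      rintro ⟨x, y, _ | _⟩ e1 e2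
      · simp only [bx, mem_RE_false, mem_LRE_false] at e1 e2
        rcases far with hD | hD
        · rcases abs_cases (v.1 - w.1) with hc | hc <;> omega
        · rcases abs_cases (v.2 - w.2) with hc | hc <;> omega
      · simp only [bx, mem_RE_true, mem_LRE_true] at e1 e2
        rcases far with hD | hD
        · rcases abs_cases (v.1 - w.1) with hc | hc <;> omega
        · rcases abs_cases (v.2 - w.2) with hc | hc <;> omega
  -- the common annulus
  have han : an v (2 * D) (4 * D) ⊆ S := (an_sub (by push_cast; omega)).trans hSv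
  have hYloc : ∀ F, W F v (2 * D) = W (F ∩ an v (2 * D) (4 * D)) v (2 * D) := by
    intro F
    have := h.wloc F v (2 * D) (by omega)
    rwa [show 2 * (2 * D) = 4 * D by ring] at this
  have hwb : bx w R ⊆ bx v (((2 * D : ℕ) : ℤ) - 1) := by
    rw [abs_le] at dx dy
    rintro ⟨x, y, _ | _⟩ e1
    · simp only [bx, mem_RE_false] at e1 ⊢
      push_cast
      omega
    · simp only [bx, mem_RE_true] at e1 ⊢
      push_cast
      omega
  have sc : Ex P2 S (fun F => t ^ N F v r R * t ^ N F w r' R * (s ^ 11) ^ W F v (2 * D)) ≤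
      A' * Real.sqrt C * (G N t r R * G N t r' R) := by
    rw [hin N h.geo hl t v w r r' R S (an v (2 * D) (4 * D)) (fun F => (s ^ 11) ^ W F v (2 * D)) rR rR'
      (union_subset hSvR han) hSwR (by
        rw [disjoint_union_left]
        refine ⟨(hdvw v w far).mono_left (bx_sub0 (by push_cast; omega)), ?_⟩
        rw [Finset.disjoint_left]
        unfold an
        intro e he he'
        exact (Finset.mem_sdiff.1 he).2 (hwb he')) (fun F _ => by rw [← hYloc F])]
    have h1 := hA' v r R c S (an v (2 * D) (4 * D)) (fun F => (s ^ 11) ^ W F v (2 * D)) rR c1 (by omega)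
      hSvR han (by
        rw [Finset.disjoint_left]
        unfold an
        intro e he he'
        exact (Finset.mem_sdiff.1 he).2 (bx_sub0 (by push_cast; omega) he')) (fun F => by positivity)
      (fun F _ => by rw [← hYloc F])
    have h2 : Ex P2 S (fun F => ((s ^ 11) ^ W F v (2 * D)) ^ 2) ≤ C := by
      have h3 := hC v (2 * D) S (by omega) (by
        refine (bx_sub0 ?_).trans hSv
        push_cast
        omega)
      refine le_trans (le_of_eq ?_) h3
      refine Ex_congr fun F _ => ?_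
      rw [pow_right_comm]
    have h4 := Real.sqrt_le_sqrt h2
    calc _ ≤ (A' * G N t r R * Real.sqrt C) * G N t r' R := by
          refine mul_le_mul_of_nonneg_right (h1.trans ?_) g2
          exact mul_le_mul_of_nonneg_left h4 (by positivity)
      _ = _ := by ring
  -- the expectation of `U`
  set U : Finset Edg → ℝ := fun F => t ^ (N F v r R + N F w r' R) with hU
  have hUpos : ∀ F, 0 < U F := fun F => pow_pos ht _
  have hEU : Ex P2 S U = G N t r R * G N t r' R := by
    have h1 := hin N h.geo hl t v w r r' R S ∅ (fun _ => 1) rR rR' (union_subset hSvR (empty_subset _))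
      hSwR (by
        rw [disjoint_union_left]
        exact ⟨(hdvw v w far).mono_left (bx_sub0 (by push_cast; omega)), disjoint_empty_left _⟩)
      (fun F _ => rfl)
    simp only [mul_one] at h1
    rw [hl t v r R S rR hSvR] at h1
    rw [← h1]
    exact Ex_congr fun F _ => by simp only [hU, pow_add]
  set B : ℝ := A + A' * Real.sqrt C with hB
  have hB0 : 0 < B := by positivity
  have gg : 0 ≤ G N t r R * G N t r' R := mul_nonneg g1 g2
  have hmom : ∀ j < 11, Ex P2 S (fun F => U F * s ^ (11 * VV N W K v w a b r r' c D j F)) ≤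
      B * Ex P2 S U := by
    intro j hj
    rw [hEU]
    have hAB : A * (G N t r R * G N t r' R) ≤ B * (G N t r R * G N t r' R) := by
      refine mul_le_mul_of_nonneg_right ?_ gg
      rw [hB]
      have : 0 ≤ A' * Real.sqrt C := by positivity
      linarith
    by_cases h5 : j < 5
    · refine le_trans (le_of_eq ?_) ((sv j h5).trans hAB)
      refine Ex_congr fun F _ => ?_
      simp only [hU, VV, if_pos h5]
      rw [pow_add, pow_mul]
    · by_cases h10 : j < 10
      · have h6 := sw (j - 5) (by omega)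
        rw [mul_comm (G N t r' R)] at h6
        refine le_trans (le_of_eq ?_) (h6.trans hAB)
        refine Ex_congr fun F _ => ?_
        simp only [hU, VV, if_neg h5, if_pos h10]
        rw [pow_add, pow_mul]
        ring
      · have hBC : A' * Real.sqrt C * (G N t r R * G N t r' R) ≤ B * (G N t r R * G N t r' R) := by
          refine mul_le_mul_of_nonneg_right ?_ gg
          rw [hB]
          linarith
        refine le_trans (le_of_eq ?_) (sc.trans hBC)
        refine Ex_congr fun F _ => ?_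
        simp only [hU, VV, if_neg h5, if_neg h10]
        rw [pow_add, pow_mul]
  have hx1 : ∀ F, 1 ≤ s ^ (∑ j ∈ range 11, VV N W K v w a b r r' c D j F) := fun F => one_le_pow₀ hs1
  constructor
  · have h1 := (Pool.Agent.W671.NC.t_DEC s B 11 S U
      (fun F => U F * s ^ (∑ j ∈ range 11, VV N W K v w a b r r' c D j F))
      (fun j F => VV N W K v w a b r r' c D j F) hs1 (by norm_num) hB0 hUpos hmom (fun F _ => by
        have e1 := hx1 F
        have e2 := (hUpos F).le
        constructor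
        · rw [mul_assoc]
          exact le_mul_of_one_le_right e2 (one_le_mul_of_one_le_of_one_le e1 e1)
        · exact le_rfl)).2
    rw [hEU] at h1
    exact h1
  · have h1 := (Pool.Agent.W671.NC.t_DEC s B 11 S U
      (fun F => U F * (s ^ (∑ j ∈ range 11, VV N W K v w a b r r' c D j F))⁻¹)
      (fun j F => VV N W K v w a b r r' c D j F) hs1 (by norm_num) hB0 hUpos hmom (fun F _ => by
        have e1 := hx1 F
        have e2 := (hUpos F).le
        constructor
        · rw [mul_assoc, inv_mul_cancel₀ (by linarith), mul_one]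
        · exact mul_le_mul_of_nonneg_left ((inv_le_one_of_one_le₀ e1).trans e1) e2)).1
    rw [hEU] at h1
    exact h1

end Pool.Agent.Y448.NL
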